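import Mathlib
import Pool.Agent.Results.MP_b3a110_an.LinearIndexGrowth

set_option autoImplicit false

/-!
Linear growth of the `ℤ/p`-index of the `p`-periodic points is attained.

The definitions `EJoin` (the join `E_n ℤ_p`), `Per` (the `p`-periodic points), `HasMap` (existence
of a continuous equivariant map to `E_n ℤ_p`) and `indPer` (the index) are those of the imported
file. The systems are the shifts on `X_q ⊆ [0,1]^ℤ`, the sequences for which every window of
`10 q + 1` consecutive integers `j` contains one with `|z (j + 1) - z j| ≥ 1 / (10 q)`.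
-/

namespace Pool.Agent.Results.MP_4d0e60_an.LinearGrowthAttained

open H317F Topology Pool.Agent.Results.MP_b3a110_an.LinearIndexGrowth

/-- **Theorem.** For every `ε > 0` there is a fixed-point free dynamical system `(X, T)` such that
`ind_p P_p(X) ≥ (1 - ε) p` for all sufficiently large primes `p`. -/
theorem result (ε : ℝ) (hε : 0 < ε) :
    ∃ (X : Type) (_ : TopologicalSpace X) (T : X ≃ₜ X),
      CompactSpace X ∧ TopologicalSpace.MetrizableSpace X ∧ (∀ x, T x ≠ x) ∧
      ∃ p₀ : ℕ, ∀ (p : ℕ) [Fact p.Prime], p₀ ≤ p →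
        ENNReal.ofReal ((1 - ε) * p) ≤ ((indPer T p : ℕ∞) : ENNReal) := by
  obtain ⟨q, hq⟩ := exists_nat_gt (12 / ε)
  have hq0 : 0 < q := by
    have h1 : (0 : ℝ) < q := lt_trans (by positivity) hq
    exact_mod_cast h1
  have hqR : (0 : ℝ) < q := by exact_mod_cast hq0
  obtain ⟨P, hP⟩ := exists_nat_gt (16 / ε)
  have hcomp : CompactSpace (Xq q) :=
    isCompact_iff_compactSpace.mp (isClosed_NP 1 q).isCompact
  have hmet : TopologicalSpace.MetrizableSpace ({z : ZZ | NP 1 q z} : Set ZZ) := inferInstance
  refine ⟨Xq q, inferInstance, shiftHomeo q, hcomp, hmet, ?_, P + 3, ?_⟩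
  · intro x hx
    obtain ⟨t, _, h1⟩ := x.2 0
    have h2 : T 1 x.1 = x.1 := congrArg Subtype.val hx
    have h3 := congrFun h2 (0 + t)
    rw [T_apply] at h3
    rw [Nat.cast_one, h3, sub_self, abs_zero] at h1
    have : (0 : ℝ) < 1 / (10 * q) := by positivity
    linarith
  · intro p hp hpP
    have h1 := index_bound q hq0 p (by omega)
    rcases eq_or_ne (indPer (shiftHomeo q) p) ⊤ with h | h
    · rw [h]; simp
    · obtain ⟨n, hn⟩ := ENat.ne_top_iff_exists.mp h
      rw [← hn] at h1 ⊢
      have h2 : p ≤ n + (6 * (p / q) + 8) := by exact_mod_cast h1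
      have h3 : (p : ℝ) ≤ n + (6 * ((p : ℝ) / q) + 8) := by
        have h4 : (p : ℝ) ≤ ((n + (6 * (p / q) + 8) : ℕ) : ℝ) := by exact_mod_cast h2
        push_cast at h4
        have h5 : ((p / q : ℕ) : ℝ) ≤ (p : ℝ) / q := Nat.cast_div_le
        linarith
      have hpR : (0 : ℝ) < p := by
        have : 0 < p := by omega
        exact_mod_cast this
      have h6 : (p : ℝ) / q ≤ ε / 12 * p := by
        rw [div_le_iff₀ hqR]
        have h7 : 12 ≤ q * ε := by
          rw [div_lt_iff₀ hε] at hq
          exact hq.le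
        nlinarith
      have h8 : 8 ≤ ε / 2 * p := by
        have h9 : (P : ℝ) ≤ p := by
          have : P ≤ p := by omega
          exact_mod_cast this
        rw [div_lt_iff₀ hε] at hP
        nlinarith
      have h10 : (1 - ε) * p ≤ n := by nlinarith
      rw [ENat.toENNReal_coe]
      calc ENNReal.ofReal ((1 - ε) * p) ≤ ENNReal.ofReal n := ENNReal.ofReal_le_ofReal h10
        _ = n := ENNReal.ofReal_natCast n

end Pool.Agent.Results.MP_4d0e60_an.LinearGrowthAttained
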